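import Pool.Agent.Helper85.SB.R
import Pool.Agent.Helper85.SB.D1
import Pool.Agent.Helper38.SB.Arcs

/-!
Equisingular families of plane curves, by a projection which need not be transversal
(Zariski's theorem in codimension one, formal version): definitions.
-/

namespace Pool.Agent.Helper85.SZ

open MvPowerSeries Pool.Agent.Helper38.EQ Pool.Agent.Helper38.GP Pool.Agent.Helper85.SB

/-- The substitution `s ↦ ζ s`, as a homomorphism of `K`-algebras. -/
noncomputable def rotK {d : ℕ} {K : Type} [Field K] (ζ : K) : WS d K →ₐ[K] WS d K :=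
  { rot ζ with
    commutes' := fun a => by
      have h1 : algebraMap K (WS d K) a = PowerSeries.C (C a) := by
        rw [IsScalarTower.algebraMap_apply K (MvPowerSeries (Fin d) K) (WS d K)]
        rfl
      have h2 : rot ζ (algebraMap K (WS d K) a) = algebraMap K (WS d K) a := by
        rw [h1]
        ext1 n
        rw [coeff_rot, PowerSeries.coeff_C]
        split_ifs with h
        · rw [h, pow_zero, map_one, one_mul]
        · rw [mul_zero]
      exact h2 }

theorem rotK_apply {d : ℕ} {K : Type} [Field K] (ζ : K) (x : WS d K) : rotK ζ x = rot ζ x := rfl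

/-- The branches of an equisingular family `g = 0` of plane curve germs with axis `I = (x, y)`, in
coordinates `x, y, t`: `G l` is the arc `(s ^ M, η_l(s, t), t)`. No transversality is assumed. -/
structure Arcs0 {d : ℕ} {K : Type} [Field K] (g : MvPowerSeries (Fin (d + 2)) K)
    (I : Ideal (MvPowerSeries (Fin (d + 2)) K)) where
  /-- the number of branches -/
  N : ℕ
  /-- the ramification -/
  M : ℕ
  hM : M ≠ 0
  pos : 0 < N
  /-- the coordinates -/
  x : MvPowerSeries (Fin (d + 2)) K
  y : MvPowerSeries (Fin (d + 2)) K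
  t : Fin d → MvPowerSeries (Fin (d + 2)) K
  hI : I = Ideal.span {x, y}
  gI : g ∈ I
  li : LinIndep (Sum.elim ![x, y] t)
  /-- the arcs -/
  G : Fin N → (MvPowerSeries (Fin (d + 2)) K →ₐ[K] WS d K)
  Gx : ∀ l, G l x = PowerSeries.X ^ M
  Gt : ∀ l j, G l (t j) = PowerSeries.C (X j)
  diff : ∀ l l', l ≠ l' → ∃ k, Associated (G l y - G l' y) (PowerSeries.X ^ k)
  /-- the rotations permute the arcs -/
  conj : ∀ ζ : K, ζ ^ M = 1 → ∀ l, ∃ l', (rotK ζ).comp (G l) = G l'
  /-- the axis is the image of `s = 0` -/
  Xy : ∀ l, PowerSeries.X ∣ G l y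
  Gg : ∀ l, G l g = 0
  /-- a series which vanishes on all arcs is a multiple of `g` -/
  compl : ∀ φ, (∀ l, G l φ = 0) → g ∣ φ

end Pool.Agent.Helper85.SZ
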