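import Pool.Agent.Helper85.SZ.Idx
import Pool.Agent.Helper85.SB.N4
import Pool.Agent.Helper38.SB.Dat
import Pool.Agent.Helper38.SZ.Arcs0
import Pool.Agent.Helper80.SZ.Dich

/-! Zariski's theorem in codimension one: a transversal projection with smooth critical variety. -/

namespace Pool.Agent.Helper85.SZ

open MvPowerSeries Pool.Agent.Helper38.EQ Pool.Agent.Helper38.GP Pool.Agent.Helper85.SB

/-- A series which vanishes on all branches is a multiple of `P`. -/
theorem dvd_arcs {d N : ℕ} {K : Type} [Field K] (p : Proj (d + 1) K)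
    (β : R1 (d + 1) K ≃ₐ[K] WS d K) {M : ℕ} (hM : M ≠ 0)
    (G : Fin N → (R1 (d + 2) K →ₐ[K] WS d K))
    (hG : ∀ l b, G l (p.σ.symm (PowerSeries.C b)) = ram hM (β b))
    (hinj : Function.Injective fun l => G l (p.σ.symm PowerSeries.X))
    {P : Polynomial (R1 (d + 1) K)}
    (hP : P.IsDistinguishedAt (IsLocalRing.maximalIdeal (R1 (d + 1) K)))
    (hPN : P.natDegree = N)
    (hP0 : ∀ l, G l (p.σ.symm (P : PowerSeries (R1 (d + 1) K))) = 0) {φ : R1 (d + 2) K}
    (hφ : ∀ l, G l φ = 0) : p.σ.symm (P : PowerSeries (R1 (d + 1) K)) ∣ φ := by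
  classical
  have hcomp := isAdicComplete_mvPowerSeries (d + 1) K
  have hW : (P : PowerSeries (R1 (d + 1) K)).IsWeierstrassDivisorAt
      (IsLocalRing.maximalIdeal (R1 (d + 1) K)) := hP.isWeierstrassDivisorAt (Ideal.IsPrime.ne_top')
  have hord : (((P : PowerSeries (R1 (d + 1) K)).map
      (Ideal.Quotient.mk (IsLocalRing.maximalIdeal (R1 (d + 1) K)))).order.toNat : WithBot ℕ) =
      P.degree := by
    have h1 : (P : PowerSeries (R1 (d + 1) K)).map
        (Ideal.Quotient.mk (IsLocalRing.maximalIdeal (R1 (d + 1) K))) =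
        PowerSeries.X ^ P.natDegree := by
      rw [← Polynomial.polynomial_map_coe, hP.map_eq_X_pow, Polynomial.coe_pow, Polynomial.coe_X]
    rw [h1, PowerSeries.order_X_pow, Polynomial.degree_eq_natDegree hP.monic.ne_zero]
    rfl
  obtain ⟨hr1, hr2⟩ := hW.isWeierstrassDivisionAt_div_mod (p.σ φ)
  set q := hW.div (p.σ φ)
  set r := hW.mod (p.σ φ)
  have hrdeg : r.degree < P.degree := by
    rw [← hord]
    exact hr1
  have hr0 : r = 0 := by
    by_contra hne
    have h1 : r.natDegree < N := by
      rw [← hPN]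
      exact Polynomial.natDegree_lt_natDegree hne hrdeg
    have h2 : ∀ l, ((r.map (β : R1 (d + 1) K →+* WS d K)).map (ram hM)).eval
        (G l (p.σ.symm PowerSeries.X)) = 0 := by
      intro l
      rw [← branch_eval p β hM (G l) (hG l)]
      have h3 : φ = p.σ.symm (P : PowerSeries (R1 (d + 1) K)) * p.σ.symm q +
          p.σ.symm (r : PowerSeries (R1 (d + 1) K)) := by
        rw [← map_mul, ← map_add, ← hr2, AlgEquiv.symm_apply_apply]
      have h4 := hφ l
      rw [h3, map_add, map_mul, hP0 l, zero_mul, zero_add] at h4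
      exact h4
    have h5 := Polynomial.eq_zero_of_natDegree_lt_card_of_eval_eq_zero _ hinj h2 (by
      rw [Fintype.card_fin]
      exact lt_of_le_of_lt (Polynomial.natDegree_map_le.trans Polynomial.natDegree_map_le) h1)
    rw [Polynomial.map_eq_zero_iff (ram_injective hM), Polynomial.map_eq_zero_iff β.injective] at h5
    exact hne h5
  refine ⟨p.σ.symm q, ?_⟩
  rw [hr0, Polynomial.coe_zero, add_zero] at hr2
  rw [← map_mul, ← hr2, AlgEquiv.symm_apply_apply]

/-- A product of linear polynomials whose roots are permuted by the rotations descends. -/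
theorem exists_P {d N : ℕ} {K : Type} [Field K] [IsAlgClosed K] [CharZero K] {M : ℕ}
    (hM : M ≠ 0) {n : ℕ} (H : Fin N → (MvPowerSeries (Fin n) K →ₐ[K] WS d K))
    (hinj : Function.Injective H) (y : MvPowerSeries (Fin n) K)
    (hrot : ∀ ζ : K, ζ ^ M = 1 → ∀ k, ∃ k', (rotK ζ).comp (H k) = H k') :
    ∃ Q : Polynomial (WS d K), Q.map (ram hM) =
      ∏ k, (Polynomial.X - Polynomial.C (H k y)) := by
  classical
  apply exists_descent hM
  intro ζ hζ
  have hζ0 : ζ ≠ 0 := by
    rintro rfl
    rw [zero_pow hM] at hζ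
    exact zero_ne_one hζ
  choose π hπ using hrot ζ hζ
  have hπi : Function.Injective π := by
    intro k k' h
    apply hinj
    apply AlgHom.ext
    intro w
    apply rot_injective hζ0
    have h1 := DFunLike.congr_fun (hπ k) w
    have h2 := DFunLike.congr_fun (hπ k') w
    rw [h, ← h2] at h1
    exact h1
  have hπb : Function.Bijective π := Finite.injective_iff_bijective.1 hπi
  rw [Polynomial.map_prod]
  conv_rhs => rw [← hπb.prod_comp]
  refine Finset.prod_congr rfl fun k _ => ?_
  rw [Polynomial.map_sub, Polynomial.map_X, Polynomial.map_C, ← hπ k]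
  rfl

/-- (Z3) The coordinates `x' = x + c y`, `t` of the base and `y` of the fibre give the data of (J). -/
theorem exists_dat' {d : ℕ} {K : Type} [Field K] [IsAlgClosed K] [CharZero K]
    {g : MvPowerSeries (Fin (d + 2)) K} {I : Ideal (MvPowerSeries (Fin (d + 2)) K)}
    (A : Arcs0 g I) (hg : g ∈ IsLocalRing.maximalIdeal (MvPowerSeries (Fin (d + 2)) K) ^ 2) :
    Nonempty (Pool.Agent.Helper38.SB.Dat g I) := by
  classical
  obtain ⟨c, hc, hA⟩ := Pool.Agent.Helper80.SZ.exists_c A
  obtain ⟨M, N, H, hM, hinj, hgood, hy, hall, hrot⟩ := exists_index A hA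
  obtain ⟨p, hpx, hpt, hpy⟩ := exists_newproj A.li c
  have hdiff : ∀ k k', k ≠ k' → ∃ e, Associated (H k A.y - H k' A.y) (PowerSeries.X ^ e) :=
    fun k k' hkk => good_diff A hc hA (hgood k) (hgood k') fun h => hkk (hinj h)
  have hyinj : Function.Injective fun k => H k A.y := by
    intro k k' h
    by_contra hne
    obtain ⟨e, he⟩ := hdiff k k' hne
    have h1 : H k A.y - H k' A.y = 0 := sub_eq_zero.2 h
    rw [h1] at he
    exact pow_ne_zero e PowerSeries.X_ne_zero ((associated_zero_iff_eq_zero _).1 he.symm)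
  let β : R1 (d + 1) K ≃ₐ[K] WS d K := finSuccEquiv K d
  have hpy' : p.σ.symm PowerSeries.X = A.y := by rw [← hpy, AlgEquiv.symm_apply_apply]
  have hHx : ∀ k, H k (A.x + C c * A.y) = PowerSeries.X ^ M := fun k => (hgood k).choose_spec.choose_spec.2.2
  have hHt : ∀ k j, H k (A.t j) = PowerSeries.C (X j) := by
    intro k j
    obtain ⟨l, φ, hφ, h1, -⟩ := hgood k
    rw [h1, AlgHom.comp_apply, A.Gt, hφ.1]
  have hHg : ∀ k, H k g = 0 := by
    intro k
    obtain ⟨l, φ, hφ, h1, -⟩ := hgood k
    rw [h1, AlgHom.comp_apply, A.Gg, map_zero]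
  -- the values on the base
  have hG : ∀ k b, H k (p.σ.symm (PowerSeries.C b)) = ram hM (β b) := by
    intro k b
    have h1 : ((H k).comp (p.σ.symm : PowerSeries (R1 (d + 1) K) →ₐ[K] R1 (d + 2) K)).comp
        (IsScalarTower.toAlgHom K (R1 (d + 1) K) (PowerSeries (R1 (d + 1) K))) =
        (Pool.Agent.Helper38.SB.ramK hM).comp (β : R1 (d + 1) K →ₐ[K] WS d K) := by
      apply homN_eq
      intro i
      change H k (p.σ.symm (PowerSeries.C (X i))) = ram hM (finSuccEquiv K d (X i))
      refine Fin.cases ?_ (fun i => ?_) i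
      · rw [← hpx, AlgEquiv.symm_apply_apply, hHx, finSuccEquiv_X_zero,
          Pool.Agent.Helper38.SB.ram_X]
      · rw [← hpt, AlgEquiv.symm_apply_apply, hHt, finSuccEquiv_X_succ,
          Pool.Agent.Helper38.SB.ram_C]
    exact DFunLike.congr_fun h1 b
  -- the polynomial
  obtain ⟨P0, hP0⟩ := exists_P hM H hinj A.y hrot
  set Q : Polynomial (WS d K) := ∏ k, (Polynomial.X - Polynomial.C (H k A.y)) with hQ
  set P : Polynomial (R1 (d + 1) K) := P0.map (β.symm : WS d K →+* R1 (d + 1) K) with hPdef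
  have hββ : (β : R1 (d + 1) K →+* WS d K).comp (β.symm : WS d K →+* R1 (d + 1) K) =
      RingHom.id _ := RingHom.ext fun x => β.apply_symm_apply x
  have hPβ : P.map (β : R1 (d + 1) K →+* WS d K) = P0 := by
    rw [hPdef, Polynomial.map_map, hββ, Polynomial.map_id]
  have hram := Pool.Agent.Helper85.SB.ram_injective (d := d) (K := K) hM
  have hQm : Q.Monic := Polynomial.monic_prod_of_monic _ _ fun l _ => Polynomial.monic_X_sub_C _
  have hQN : Q.natDegree = N := by
    rw [hQ, Polynomial.natDegree_prod_of_monic _ _ fun l _ => Polynomial.monic_X_sub_C _]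
    simp
  have hP0m : P0.Monic := Polynomial.monic_of_injective hram (by rw [hP0]; exact hQm)
  have hPm : P.Monic := hP0m.map _
  have hPN : P.natDegree = N := by
    rw [hPdef, hP0m.natDegree_map, ← hQN, ← hP0, hP0m.natDegree_map]
  -- the coefficients
  have hQc : ∀ k, Q.coeff k ∈ Ideal.span {(PowerSeries.X ^ M : WS d K)} ^ (N - k) := by
    intro k
    have h1 := Polynomial.coeff_prod_mem_ideal_pow_tsub (Finset.univ : Finset (Fin N))
      (fun k => Polynomial.X - Polynomial.C (H k A.y)) (Ideal.span {(PowerSeries.X ^ M : WS d K)})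
      (fun _ => 1) (fun k _ i => by
        rcases i with _ | i
        · rw [Nat.sub_zero, pow_one, Polynomial.coeff_sub, Polynomial.coeff_X_zero,
            Polynomial.coeff_C_zero, zero_sub, neg_mem_iff, Ideal.mem_span_singleton]
          exact hy k
        · have h2 : 1 - (i + 1) = 0 := by omega
          rw [h2, pow_zero, Ideal.one_eq_top]
          exact Submodule.mem_top) k
    simpa using h1
  have hcm : ∀ k, P.coeff k ∈ IsLocalRing.maximalIdeal (R1 (d + 1) K) ^ (N - k) := by
    intro k
    have h1 := hQc k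
    rw [Ideal.span_singleton_pow, Ideal.mem_span_singleton, ← pow_mul, ← hP0,
      Polynomial.coeff_map] at h1
    obtain ⟨q, hq⟩ := Pool.Agent.Helper38.SB.dvd_of_ram hM h1
    have h2 : P.coeff k = X 0 ^ (N - k) * β.symm q := by
      have h3 : β.symm PowerSeries.X = X 0 := by
        rw [AlgEquiv.symm_apply_eq]
        exact finSuccEquiv_X_zero.symm
      rw [hPdef, Polynomial.coeff_map, hq, ← h3, ← map_pow]
      exact map_mul β.symm _ _
    rw [h2]
    refine Ideal.mul_mem_right _ _ (Ideal.pow_mem_pow ?_ _)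
    rw [mem_maximalIdeal_iff_constantCoeff, constantCoeff_X]
  have hPd : P.IsDistinguishedAt (IsLocalRing.maximalIdeal (R1 (d + 1) K)) := by
    refine ⟨⟨fun {i} hi => ?_⟩, hPm⟩
    rw [hPN] at hi
    exact Ideal.pow_le_self (by omega) (hcm i)
  have hHP : ∀ k, H k (p.σ.symm (P : PowerSeries (R1 (d + 1) K))) = 0 := by
    intro k
    rw [branch_eval p β hM (H k) (hG k), hPβ, hP0, hQ, Polynomial.eval_prod]
    apply Finset.prod_eq_zero (Finset.mem_univ k)
    rw [hpy']
    simp
  -- `g` is `P` up to a unit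
  have hd1 : p.σ.symm (P : PowerSeries (R1 (d + 1) K)) ∣ g :=
    dvd_arcs p β hM H hG (by rw [hpy']; exact hyinj) hPd hPN hHP hHg
  have hd2 : g ∣ p.σ.symm (P : PowerSeries (R1 (d + 1) K)) := by
    apply A.compl
    intro l
    obtain ⟨φ, hφ, k, hk⟩ := hall l
    have h1 := hHP k
    rw [hk, AlgHom.comp_apply] at h1
    exact hφ.injective (by rw [h1, map_zero])
  obtain ⟨u, hu⟩ := associated_of_dvd_dvd hd1 hd2
  have hW : (p.σ g).IsWeierstrassFactorization P (p.σ (u : R1 (d + 2) K)) := by
    refine ⟨hPd, u.isUnit.map p.σ, ?_⟩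
    rw [← hu, map_mul, AlgEquiv.apply_symm_apply]
  -- the order
  have htwo : 2 ≤ P.natDegree := by
    by_contra hcon
    have htr : p.tr g = 0 := by
      rw [Proj.tr_eq_lin]
      unfold lin
      refine Finset.sum_eq_zero fun j _ => ?_
      rw [((Pool.Agent.Helper38.ED.LIBasic1_mem_sq_iff _).1 hg).2 j, zero_mul]
    have hUc : constantCoeff (PowerSeries.constantCoeff (p.σ (u : R1 (d + 2) K))) ≠ 0 := by
      have h1 := hW.isUnit
      rw [PowerSeries.isUnit_iff_constantCoeff, MvPowerSeries.isUnit_iff_constantCoeff,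
        isUnit_iff_ne_zero] at h1
      exact h1
    have hN2 : P.natDegree = 0 ∨ P.natDegree = 1 := by omega
    rcases hN2 with h0 | h0
    · have h1 : P = 1 := hPm.natDegree_eq_zero.1 h0
      have h2 : IsUnit g := by
        have h3 := hW.eq_mul
        rw [h1, Polynomial.coe_one, one_mul] at h3
        rw [← isUnit_map_iff p.σ, h3]
        exact hW.isUnit
      exact (IsLocalRing.mem_maximalIdeal _).1 (Ideal.pow_le_self two_ne_zero hg) h2
    · apply hUc
      have h1 : P = Polynomial.X + Polynomial.C (P.coeff 0) := by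
        have := hPm.as_sum
        rw [h0] at this
        simpa using this
      have h2 : constantCoeff (P.coeff 0) = 0 := by
        rw [← mem_maximalIdeal_iff_constantCoeff]
        exact Ideal.pow_le_self (by omega) (hcm 0)
      unfold Proj.tr at htr
      rw [hW.eq_mul, h1, Polynomial.coe_add, Polynomial.coe_X, Polynomial.coe_C, add_mul, map_add,
        map_add] at htr
      have h3 : PowerSeries.coeff 1 (PowerSeries.X * p.σ (u : R1 (d + 2) K)) =
          PowerSeries.constantCoeff (p.σ (u : R1 (d + 2) K)) := by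
        have := PowerSeries.coeff_succ_X_mul 0 (p.σ (u : R1 (d + 2) K))
        rw [zero_add] at this
        rw [this, PowerSeries.coeff_zero_eq_constantCoeff_apply]
      rw [h3, PowerSeries.coeff_C_mul, map_mul, h2, zero_mul, add_zero] at htr
      exact htr
  -- the axis
  have hI : Ideal.map p.σ I = Ideal.span {PowerSeries.C (β.symm PowerSeries.X),
      PowerSeries.X - PowerSeries.C (0 : R1 (d + 1) K)} := by
    have h3 : β.symm PowerSeries.X = X 0 := by
      rw [AlgEquiv.symm_apply_eq]
      exact finSuccEquiv_X_zero.symm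
    have hx : p.σ A.x = PowerSeries.C (X 0) - p.σ (C c) * PowerSeries.X := by
      rw [← hpx, map_add, map_mul, hpy]
      ring
    rw [A.hI, Ideal.map_span, Set.image_pair, map_zero, sub_zero, h3, hpy, hx]
    apply le_antisymm
    · rw [Ideal.span_le]
      rintro w (rfl | hw)
      · exact Ideal.sub_mem _ (Ideal.subset_span (Set.mem_insert _ _))
          (Ideal.mul_mem_left _ _ (Ideal.subset_span (Set.mem_insert_of_mem _ rfl)))
      · rw [Set.mem_singleton_iff.1 hw]
        exact Ideal.subset_span (Set.mem_insert_of_mem _ rfl)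
    · rw [Ideal.span_le]
      rintro w (rfl | hw)
      · have h4 := Ideal.add_mem _
          (Ideal.subset_span (Set.mem_insert (PowerSeries.C (X 0) - p.σ (C c) * PowerSeries.X)
            {(PowerSeries.X : PowerSeries (R1 (d + 1) K))}))
          (Ideal.mul_mem_left (Ideal.span {PowerSeries.C (X 0) - p.σ (C c) * PowerSeries.X,
            (PowerSeries.X : PowerSeries (R1 (d + 1) K))}) (p.σ (C c))
            (Ideal.subset_span (Set.mem_insert_of_mem _ rfl)))
        rw [sub_add_cancel] at h4
        exact h4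
      · rw [Set.mem_singleton_iff.1 hw]
        exact Ideal.subset_span (Set.mem_insert_of_mem _ rfl)
  have hρ : (P.map (β : R1 (d + 1) K →+* WS d K)).map (ram hM) =
      ∏ i : Fin P.natDegree, (Polynomial.X - Polynomial.C (H (Fin.cast hPN i) A.y)) := by
    rw [hPβ, hP0, hQ]
    exact (Fintype.prod_equiv (finCongr hPN) _ _ fun i => rfl).symm
  refine ⟨⟨p, β, P, p.σ (u : R1 (d + 2) K), hW, fun k => by rw [hPN]; exact hcm k, M, hM,
    fun i => H (Fin.cast hPN i) A.y, hρ, fun i => ?_, fun i j hij => ?_, 0, Ideal.zero_mem _, hI,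
    A.gI, htwo⟩⟩
  · obtain ⟨q, hq⟩ := hy (Fin.cast hPN i)
    rw [hq]
    refine Ideal.mul_mem_right _ _ (Ideal.pow_mem_of_mem _ ?_ _ (Nat.pos_of_ne_zero hM))
    rw [mem_mW, res_X]
  · exact hdiff _ _ fun h => hij (Fin.cast_injective hPN h)

end Pool.Agent.Helper85.SZ
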