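import Pool.Agent.Helper85.SZ.Sf
import Pool.Agent.Helper85.SB.Final
import Pool.Agent.Helper49.SZ.Smooth

/-! The final statement: one transversal equisingular projection. -/

namespace Pool.Agent.Helper85.SZ

open MvPowerSeries Pool.Agent.Helper38.EQ Pool.Agent.Helper38.GP Pool.Agent.Helper85.R2
open Pool.Agent.Helper85.SB

/-- All projections with a direction off finitely many hyperplanes. -/
theorem forms_of_sfam {d m : ℕ} {K : Type} [Field K] [IsAlgClosed K] [CharZero K]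
    {e : Fin m → MvPowerSeries (Fin (d + 3)) K}
    (he : ∀ i, e i ∈ IsLocalRing.maximalIdeal (MvPowerSeries (Fin (d + 3)) K) ∧
      e i ∉ IsLocalRing.maximalIdeal (MvPowerSeries (Fin (d + 3)) K) ^ 2)
    {I : Ideal (MvPowerSeries (Fin (d + 3)) K)} (F : SFam e I) :
    ∃ Λ : Finset (Fin (d + 3) → K), (∀ ℓ ∈ Λ, ℓ ≠ 0) ∧
      ∀ (z : Fin (d + 2) → MvPowerSeries (Fin (d + 3)) K) (v : Fin (d + 3) → K), LinIndep z →
        (∀ i, lin (z i) v = 0) → (∀ ℓ ∈ Λ, ∑ j, ℓ j * v j ≠ 0) →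
          IsParams (∏ i, e i) z ∧ Permissible I z ∧ Transversal (∏ i, e i) z ∧
            ∀ 𝒞, HasLin 𝒞 → EquiProj 𝒞 1 (∏ i, e i) I z := by
  classical
  refine ⟨(Finset.univ.image fun i j => coeff (Finsupp.single j 1) (e i)) ∪
    ((Finset.univ.filter fun q : Fin F.N × Fin F.N => q.1 ≠ q.2).image fun q =>
      F.form q.1 q.2), ?_, ?_⟩
  · intro ℓ hℓ
    rcases Finset.mem_union.1 hℓ with h1 | h1
    · obtain ⟨i, -, rfl⟩ := Finset.mem_image.1 h1
      intro h2
      apply (he i).2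
      rw [Pool.Agent.Helper38.ED.LIBasic1_mem_sq_iff]
      exact ⟨(mem_maximalIdeal_iff_constantCoeff _).1 (he i).1, fun j => congrFun h2 j⟩
    · obtain ⟨q, hq, rfl⟩ := Finset.mem_image.1 h1
      exact F.form_ne _ _ (Finset.mem_filter.1 hq).2
  · intro z v hz hv hΛ
    have hev : ∀ i, lin (e i) v ≠ 0 := fun i =>
      hΛ _ (Finset.mem_union_left _ (Finset.mem_image.2 ⟨i, Finset.mem_univ _, rfl⟩))
    have hyp : ∀ l l', l ≠ l' → F.hyper l l' v ≠ 0 := by
      intro l l' hll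
      rw [F.hyper_eq]
      exact hΛ _ (Finset.mem_union_right _ (Finset.mem_image.2
        ⟨(l, l'), Finset.mem_filter.2 ⟨Finset.mem_univ _, hll⟩, rfl⟩))
    -- the coordinates
    obtain ⟨p, hp⟩ := exists_proj_of_linIndep z hz
    have hzp : z = fun i => p.σ.symm (PowerSeries.C (X i)) := by
      funext i
      rw [← hp i, AlgEquiv.symm_apply_apply]
    have hlN : 0 < F.N := by
      have := F.two
      omega
    obtain ⟨i₀, -, -, -⟩ := F.exists_pair ⟨0, hlN⟩
    have hm : m ≠ 0 := by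
      rintro rfl
      exact i₀.elim0
    have hv0 : v ≠ 0 := by
      rintro rfl
      apply hev i₀
      unfold lin
      simp
    obtain ⟨c, hc, hcv⟩ := exists_smul_tr z hz p hp hv hv0
    have hte : ∀ i, p.tr (e i) ≠ 0 := by
      intro i
      have h1 : p.tr (e i) = c * lin (e i) v := by
        rw [p.tr_eq_lin]
        unfold lin
        rw [Finset.mul_sum]
        refine Finset.sum_congr rfl fun j _ => ?_
        change coeff (Finsupp.single j 1) (e i) * p.tr (X j) = _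
        rw [hcv]
        ring
      rw [h1]
      exact mul_ne_zero hc (hev i)
    have he1 : ∀ i, e i ∈ IsLocalRing.maximalIdeal (MvPowerSeries (Fin (d + 3)) K) :=
      fun i => (he i).1
    refine ⟨?_, ?_, ?_, fun 𝒞 h𝒞 => equiProj_new h𝒞 F hz hv hev hyp⟩
    · rw [hzp]
      exact isParams_of_tr p he1 hte hm (Associated.refl _)
    · rw [hzp]
      exact permissible_of_tr p (F.he i₀) (hte i₀)
    · rw [hzp]
      exact transversal_of_tr p he1 hte (Associated.refl _)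

/-- If one transversal projection is equisingular, all projections with a direction off finitely
many hyperplanes are. -/
theorem exists_forms2 {d m : ℕ} {K : Type} [Field K] [IsAlgClosed K] [CharZero K]
    {e : Fin m → MvPowerSeries (Fin (d + 3)) K}
    (he : ∀ i, e i ∈ IsLocalRing.maximalIdeal (MvPowerSeries (Fin (d + 3)) K) ∧
      e i ∉ IsLocalRing.maximalIdeal (MvPowerSeries (Fin (d + 3)) K) ^ 2)
    {I : Ideal (MvPowerSeries (Fin (d + 3)) K)} (hf : ∏ i, e i ∈ I)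
    {z₀ : Fin (d + 2) → MvPowerSeries (Fin (d + 3)) K} (hT : Transversal (∏ i, e i) z₀)
    (hpar : IsParams (∏ i, e i) z₀) (hperm : Permissible I z₀)
    {g : MvPowerSeries (Fin (d + 2)) K} {I' : Ideal (MvPowerSeries (Fin (d + 2)) K)}
    (hc : IsCrit (∏ i, e i) I z₀ g I') (hE : Equi (Formal K) 1 (d + 2) g I') :
    ∃ Λ : Finset (Fin (d + 3) → K), (∀ ℓ ∈ Λ, ℓ ≠ 0) ∧
      ∀ (z : Fin (d + 2) → MvPowerSeries (Fin (d + 3)) K) (v : Fin (d + 3) → K), LinIndep z →
        (∀ i, lin (z i) v = 0) → (∀ ℓ ∈ Λ, ∑ j, ℓ j * v j ≠ 0) →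
          IsParams (∏ i, e i) z ∧ Permissible I z ∧ Transversal (∏ i, e i) z ∧
          EquiProj (Formal K) 1 (∏ i, e i) I z ∧
          (g ∈ IsLocalRing.maximalIdeal (MvPowerSeries (Fin (d + 2)) K) ^ 2 →
            ∀ 𝒞, HasLin 𝒞 → EquiProj 𝒞 1 (∏ i, e i) I z) := by
  classical
  by_cases hg : g ∈ IsLocalRing.maximalIdeal (MvPowerSeries (Fin (d + 2)) K) ^ 2
  · obtain ⟨F⟩ := exists_sfam' he hf hT hpar hperm hc hE hg
    obtain ⟨Λ, hΛ0, hΛ⟩ := forms_of_sfam he F
    refine ⟨Λ, hΛ0, fun z v hz hv hne => ?_⟩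
    obtain ⟨h1, h2, h3, h4⟩ := hΛ z v hz hv hne
    exact ⟨h1, h2, h3, h4 _ fun _ _ _ _ => trivial, fun _ => h4⟩
  · refine ⟨Finset.univ.image fun i j => coeff (Finsupp.single j 1) (e i), ?_, ?_⟩
    · intro ℓ hℓ
      obtain ⟨i, -, rfl⟩ := Finset.mem_image.1 hℓ
      intro h2
      apply (he i).2
      rw [Pool.Agent.Helper38.ED.LIBasic1_mem_sq_iff]
      exact ⟨(mem_maximalIdeal_iff_constantCoeff _).1 (he i).1, fun j => congrFun h2 j⟩
    · intro z v hz hv hne
      have hev : ∀ i, lin (e i) v ≠ 0 := fun i =>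
        hne _ (Finset.mem_image.2 ⟨i, Finset.mem_univ _, rfl⟩)
      have hEP := Pool.Agent.Helper49.SZ.equiProj_smooth he hf hT hpar hperm hc hg hE hz hv hev
      have hItop : I ≠ ⊤ := by
        intro hI
        obtain ⟨σ, F, hσ, hU, hred, hI'⟩ := hc
        apply hE.ne_top
        rw [hI', Coord.image, hI, Ideal.map_top, Ideal.comap_top]
      have hm : m ≠ 0 := by
        rintro rfl
        apply hItop
        rw [Ideal.eq_top_iff_one]
        simpa using hf
      obtain ⟨p, hp⟩ := exists_proj_of_linIndep z hz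
      have hzp : z = fun i => p.σ.symm (PowerSeries.C (X i)) := by
        funext i
        rw [← hp i, AlgEquiv.symm_apply_apply]
      have hv0 : v ≠ 0 := by
        rintro rfl
        apply hev ⟨0, Nat.pos_of_ne_zero hm⟩
        unfold lin
        simp
      obtain ⟨c, hc0, hcv⟩ := exists_smul_tr z hz p hp hv hv0
      have hte : ∀ i, p.tr (e i) ≠ 0 := by
        intro i
        have h1 : p.tr (e i) = c * lin (e i) v := by
          rw [p.tr_eq_lin]
          unfold lin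
          rw [Finset.mul_sum]
          refine Finset.sum_congr rfl fun j _ => ?_
          change coeff (Finsupp.single j 1) (e i) * p.tr (X j) = _
          rw [hcv]
          ring
        rw [h1]
        exact mul_ne_zero hc0 (hev i)
      refine ⟨hEP.1, hEP.2.1, ?_, hEP, fun h => absurd h hg⟩
      rw [hzp]
      exact transversal_of_tr p (fun i => (he i).1) hte (Associated.refl _)

/-- The number of variables. -/
theorem two_le {n : ℕ} {K : Type} [Field K] {𝒞 : ProjClass K}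
    {g : MvPowerSeries (Fin n) K} {I' : Ideal (MvPowerSeries (Fin n) K)}
    (h : Equi 𝒞 1 n g I') : ∃ d, n = d + 2 := by
  cases n with
  | zero => exact h.elim
  | succ n =>
    obtain ⟨-, z', -, -, -, g', I'', -, hE'⟩ := h
    cases n with
    | zero =>
      exfalso
      obtain ⟨h1, h2, -⟩ := hE'
      apply h2
      have h3 : g' = 0 := by
        have h4 : constantCoeff g' = 0 := (mem_maximalIdeal_iff_constantCoeff _).1 h1
        ext ν
        rw [show ν = 0 from Subsingleton.elim _ _, coeff_zero_eq_constantCoeff_apply, h4, map_zero]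
      rw [h3]
      exact Ideal.zero_mem _
    | succ d => exact ⟨d, rfl⟩

/-- The first part of the result. -/
theorem exists_forms2' {n m : ℕ} {K : Type} [Field K] [IsAlgClosed K] [CharZero K]
    (e : Fin m → MvPowerSeries (Fin (n + 1)) K)
    (he : ∀ i, e i ∈ IsLocalRing.maximalIdeal (MvPowerSeries (Fin (n + 1)) K) ∧
      e i ∉ IsLocalRing.maximalIdeal (MvPowerSeries (Fin (n + 1)) K) ^ 2)
    (I : Ideal (MvPowerSeries (Fin (n + 1)) K)) (hf : ∏ i, e i ∈ I)
    (z₀ : Fin n → MvPowerSeries (Fin (n + 1)) K) (hT : Transversal (∏ i, e i) z₀)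
    (hpar : IsParams (∏ i, e i) z₀) (hperm : Permissible I z₀)
    (g : MvPowerSeries (Fin n) K) (I' : Ideal (MvPowerSeries (Fin n) K))
    (hc : IsCrit (∏ i, e i) I z₀ g I') (hE : Equi (Formal K) 1 n g I') :
    ∃ Λ : Finset (Fin (n + 1) → K), (∀ ℓ ∈ Λ, ℓ ≠ 0) ∧
      ∀ (z : Fin n → MvPowerSeries (Fin (n + 1)) K) (v : Fin (n + 1) → K), LinIndep z →
        (∀ i, lin (z i) v = 0) → (∀ ℓ ∈ Λ, ∑ j, ℓ j * v j ≠ 0) →
          IsParams (∏ i, e i) z ∧ Permissible I z ∧ Transversal (∏ i, e i) z ∧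
          EquiProj (Formal K) 1 (∏ i, e i) I z ∧
          (g ∈ IsLocalRing.maximalIdeal (MvPowerSeries (Fin n) K) ^ 2 →
            ∀ 𝒞, HasLin 𝒞 → EquiProj 𝒞 1 (∏ i, e i) I z) := by
  obtain ⟨d, rfl⟩ := two_le hE
  exact exists_forms2 he hf hT hpar hperm hc hE

/-- From hyperplanes to a polynomial in the coefficients. -/
theorem exists_G {n : ℕ} (Λ : Finset (Fin (n + 2) → ℂ)) (hΛ : ∀ ℓ ∈ Λ, ℓ ≠ 0) :
    ∃ G : MvPolynomial (Fin (n + 1) × {ν : Fin (n + 2) →₀ ℕ // ν ≠ 0}) ℂ, G ≠ 0 ∧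
      ∀ z : Fin (n + 1) → MvPowerSeries (Fin (n + 2)) ℂ, (∀ i, constantCoeff (z i) = 0) →
        MvPolynomial.eval (fun p => coeff p.2.1 (z p.1)) G ≠ 0 →
          ∃ v, LinIndep z ∧ (∀ i, lin (z i) v = 0) ∧ ∀ ℓ ∈ Λ, ∑ j, ℓ j * v j ≠ 0 := by
  classical
  let Q : MvPolynomial (Fin (n + 2)) ℂ := ∏ ℓ ∈ Λ, ∑ j, MvPolynomial.C (ℓ j) * MvPolynomial.X j
  have hQe : ∀ v, MvPolynomial.eval v Q = ∏ ℓ ∈ Λ, ∑ j, ℓ j * v j := by
    intro v
    change MvPolynomial.eval v (∏ ℓ ∈ Λ, ∑ j, MvPolynomial.C (ℓ j) * MvPolynomial.X j) = _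
    rw [map_prod]
    refine Finset.prod_congr rfl fun ℓ _ => ?_
    rw [map_sum]
    refine Finset.sum_congr rfl fun j _ => ?_
    rw [map_mul, MvPolynomial.eval_C, MvPolynomial.eval_X]
  have hQ : Q ≠ 0 := by
    refine Finset.prod_ne_zero_iff.2 fun ℓ hℓ h0 => hΛ ℓ hℓ ?_
    funext j
    have h1 := congrArg (MvPolynomial.eval (Pi.single j 1)) h0
    rw [map_sum, map_zero, Finset.sum_eq_single j] at h1
    · rw [map_mul, MvPolynomial.eval_C, MvPolynomial.eval_X, Pi.single_eq_same, mul_one] at h1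
      exact h1
    · intro b _ hb
      rw [map_mul, MvPolynomial.eval_C, MvPolynomial.eval_X, Pi.single_eq_of_ne hb, mul_zero]
    · intro h2
      exact absurd (Finset.mem_univ j) h2
  obtain ⟨G, hG0, hG⟩ := exists_good_poly Q hQ
  refine ⟨G, hG0, fun z hz0 hzG => ?_⟩
  obtain ⟨hz, v, hv, -, hvQ⟩ := hG z hz0 hzG
  rw [hQe] at hvQ
  exact ⟨v, hz, hv, fun ℓ hℓ => Finset.prod_ne_zero_iff.1 hvQ ℓ hℓ⟩

/-- The second part of the result. -/
theorem exists_G2 {n m : ℕ} (e : Fin m → MvPowerSeries (Fin (n + 1)) ℂ)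
    (he : ∀ i, e i ∈ IsLocalRing.maximalIdeal (MvPowerSeries (Fin (n + 1)) ℂ) ∧
      e i ∉ IsLocalRing.maximalIdeal (MvPowerSeries (Fin (n + 1)) ℂ) ^ 2)
    (I : Ideal (MvPowerSeries (Fin (n + 1)) ℂ)) (hf : ∏ i, e i ∈ I)
    (z₀ : Fin n → MvPowerSeries (Fin (n + 1)) ℂ) (hT : Transversal (∏ i, e i) z₀)
    (hpar : IsParams (∏ i, e i) z₀) (hperm : Permissible I z₀)
    (g : MvPowerSeries (Fin n) ℂ) (I' : Ideal (MvPowerSeries (Fin n) ℂ))
    (hc : IsCrit (∏ i, e i) I z₀ g I') (hE : Equi (Formal ℂ) 1 n g I') :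
    ∃ G : MvPolynomial (Fin n × {ν : Fin (n + 1) →₀ ℕ // ν ≠ 0}) ℂ, G ≠ 0 ∧
      ∀ z : Fin n → MvPowerSeries (Fin (n + 1)) ℂ, (∀ i, constantCoeff (z i) = 0) →
        MvPolynomial.eval (fun p => coeff p.2.1 (z p.1)) G ≠ 0 →
          IsParams (∏ i, e i) z ∧ Permissible I z ∧ Transversal (∏ i, e i) z ∧
          EquiProj (Formal ℂ) 1 (∏ i, e i) I z ∧
          (g ∈ IsLocalRing.maximalIdeal (MvPowerSeries (Fin n) ℂ) ^ 2 →
            ∀ 𝒞, HasLin 𝒞 → EquiProj 𝒞 1 (∏ i, e i) I z) := by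
  obtain ⟨d, rfl⟩ := two_le hE
  obtain ⟨Λ, hΛ0, hΛ⟩ := exists_forms2 he hf hT hpar hperm hc hE
  obtain ⟨G, hG0, hG⟩ := exists_G Λ hΛ0
  refine ⟨G, hG0, fun z hz0 hzG => ?_⟩
  obtain ⟨v, hz, hv, hne⟩ := hG z hz0 hzG
  exact hΛ z v hz hv hne

/-- Arbitrary projections are formal ones. -/
theorem equi_formal {K : Type} [Field K] {𝒞 : ProjClass K} {r n : ℕ}
    {f : MvPowerSeries (Fin n) K} {I : Ideal (MvPowerSeries (Fin n) K)} (h : Equi 𝒞 r n f I) :
    Equi (Formal K) r n f I := by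
  induction r generalizing n f I with
  | zero => exact h
  | succ r ih =>
    cases n with
    | zero => exact h.elim
    | succ n =>
      obtain ⟨hf, z, -, h1, h2, g, I', h3, h4⟩ := h
      exact ⟨hf, z, trivial, h1, h2, g, I', h3, ih h4⟩

/-- Projections with a direction off the tangent hyperplanes of the sheets are transversal. -/
theorem transversal_of_lin {d m : ℕ} {K : Type} [Field K] [IsAlgClosed K] [CharZero K]
    {e : Fin m → MvPowerSeries (Fin (d + 2)) K} (hm : m ≠ 0)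
    (he : ∀ i, e i ∈ IsLocalRing.maximalIdeal (MvPowerSeries (Fin (d + 2)) K))
    {z : Fin (d + 1) → MvPowerSeries (Fin (d + 2)) K} {v : Fin (d + 2) → K} (hz : LinIndep z)
    (hv : ∀ i, lin (z i) v = 0) (hev : ∀ i, lin (e i) v ≠ 0) : Transversal (∏ i, e i) z := by
  classical
  have hchar : CharZero K := inferInstance
  have hinf : Infinite K := inferInstance
  obtain ⟨p, hp⟩ := exists_proj_of_linIndep z hz
  have hzp : z = fun i => p.σ.symm (PowerSeries.C (X i)) := by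
    funext i
    rw [← hp i, AlgEquiv.symm_apply_apply]
  have hv0 : v ≠ 0 := by
    rintro rfl
    apply hev ⟨0, Nat.pos_of_ne_zero hm⟩
    unfold lin
    simp
  obtain ⟨c, hc0, hcv⟩ := exists_smul_tr z hz p hp hv hv0
  have hte : ∀ i, p.tr (e i) ≠ 0 := by
    intro i
    have h1 : p.tr (e i) = c * lin (e i) v := by
      rw [p.tr_eq_lin]
      unfold lin
      rw [Finset.mul_sum]
      refine Finset.sum_congr rfl fun j _ => ?_
      change coeff (Finsupp.single j 1) (e i) * p.tr (X j) = _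
      rw [hcv]
      ring
    rw [h1]
    exact mul_ne_zero hc0 (hev i)
  rw [hzp]
  exact transversal_of_tr p he hte (Associated.refl _)

/-- A nonzero polynomial in the coefficients does not vanish at some series. -/
theorem exists_point {n : ℕ} (G : MvPolynomial (Fin n × {ν : Fin (n + 1) →₀ ℕ // ν ≠ 0}) ℂ)
    (hG : G ≠ 0) : ∃ z : Fin n → MvPowerSeries (Fin (n + 1)) ℂ,
      (∀ i, constantCoeff (z i) = 0) ∧
      MvPolynomial.eval (fun p => coeff p.2.1 (z p.1)) G ≠ 0 := by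
  classical
  obtain ⟨a, ha⟩ : ∃ a, MvPolynomial.eval a G ≠ 0 := by
    by_contra hcon
    push Not at hcon
    exact hG (MvPolynomial.funext fun x => by rw [hcon x, map_zero])
  let z : Fin n → MvPowerSeries (Fin (n + 1)) ℂ := fun i ν =>
    if h : ν = 0 then 0 else a (i, ⟨ν, h⟩)
  have h1 : ∀ p : Fin n × {ν : Fin (n + 1) →₀ ℕ // ν ≠ 0}, coeff p.2.1 (z p.1) = a p := by
    intro p
    change z p.1 p.2.1 = a p
    simp only [z]
    rw [dif_neg p.2.2]
  refine ⟨z, fun i => ?_, ?_⟩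
  · rw [← coeff_zero_eq_constantCoeff_apply]
    change z i 0 = 0
    simp only [z]
    rw [dif_pos trivial]
  · have h2 : (fun p : Fin n × {ν : Fin (n + 1) →₀ ℕ // ν ≠ 0} => coeff p.2.1 (z p.1)) = a :=
      funext h1
    rw [h2]
    exact ha

/-- The equivalence. -/
theorem equi_iff {n m : ℕ} (e : Fin m → MvPowerSeries (Fin (n + 1)) ℂ)
    (he : ∀ i, e i ∈ IsLocalRing.maximalIdeal (MvPowerSeries (Fin (n + 1)) ℂ) ∧
      e i ∉ IsLocalRing.maximalIdeal (MvPowerSeries (Fin (n + 1)) ℂ) ^ 2)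
    (I : Ideal (MvPowerSeries (Fin (n + 1)) ℂ)) (hf : ∏ i, e i ∈ I) :
    (∃ z₀ : Fin n → MvPowerSeries (Fin (n + 1)) ℂ, Transversal (∏ i, e i) z₀ ∧
      EquiProj (Formal ℂ) 1 (∏ i, e i) I z₀) ↔
    ∃ G : MvPolynomial (Fin n × {ν : Fin (n + 1) →₀ ℕ // ν ≠ 0}) ℂ, G ≠ 0 ∧
      ∀ z : Fin n → MvPowerSeries (Fin (n + 1)) ℂ, (∀ i, constantCoeff (z i) = 0) →
        MvPolynomial.eval (fun p => coeff p.2.1 (z p.1)) G ≠ 0 →
          EquiProj (Formal ℂ) 1 (∏ i, e i) I z := by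
  classical
  constructor
  · rintro ⟨z₀, hT, hpar, hperm, g, I', hc, hE⟩
    obtain ⟨G, hG0, hG⟩ := exists_G2 e he I hf z₀ hT hpar hperm g I' hc hE
    exact ⟨G, hG0, fun z hz hne => (hG z hz hne).2.2.2.1⟩
  · rintro ⟨G, hG0, hG⟩
    obtain ⟨z₁, hz₁, hz₁G⟩ := exists_point G hG0
    obtain ⟨-, -, g₁, I₁, hc₁, hE₁⟩ := hG z₁ hz₁ hz₁G
    obtain ⟨d, rfl⟩ := two_le hE₁
    have hm : m ≠ 0 := by
      rintro rfl
      obtain ⟨σ, F, hσ, hU, hred, hI'⟩ := hc₁
      apply hE₁.ne_top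
      have hI : I = ⊤ := by
        rw [Ideal.eq_top_iff_one]
        simpa using hf
      rw [hI', Coord.image, hI, Ideal.map_top, Ideal.comap_top]
    let Q : MvPolynomial (Fin (d + 3)) ℂ := ∏ i, ∑ j,
      MvPolynomial.C (coeff (Finsupp.single j 1) (e i)) * MvPolynomial.X j
    have hQe : ∀ v, MvPolynomial.eval v Q = ∏ i, lin (e i) v := by
      intro v
      change MvPolynomial.eval v (∏ i, ∑ j,
        MvPolynomial.C (coeff (Finsupp.single j 1) (e i)) * MvPolynomial.X j) = _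
      rw [map_prod]
      refine Finset.prod_congr rfl fun ℓ _ => ?_
      rw [map_sum]
      refine Finset.sum_congr rfl fun j _ => ?_
      rw [map_mul, MvPolynomial.eval_C, MvPolynomial.eval_X]
    have hQ : Q ≠ 0 := by
      refine Finset.prod_ne_zero_iff.2 fun i _ h0 => (he i).2 ?_
      rw [Pool.Agent.Helper38.ED.LIBasic1_mem_sq_iff]
      refine ⟨(mem_maximalIdeal_iff_constantCoeff _).1 (he i).1, fun j => ?_⟩
      have h1 := congrArg (MvPolynomial.eval (Pi.single j 1)) h0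
      rw [map_sum, map_zero, Finset.sum_eq_single j] at h1
      · rw [map_mul, MvPolynomial.eval_C, MvPolynomial.eval_X, Pi.single_eq_same, mul_one] at h1
        exact h1
      · intro b _ hb
        rw [map_mul, MvPolynomial.eval_C, MvPolynomial.eval_X, Pi.single_eq_of_ne hb, mul_zero]
      · intro h2
        exact absurd (Finset.mem_univ j) h2
    obtain ⟨G₂, hG₂0, hG₂⟩ := exists_good_poly Q hQ
    obtain ⟨z, hz, hzG⟩ := exists_point (G * G₂) (mul_ne_zero hG0 hG₂0)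
    rw [map_mul] at hzG
    obtain ⟨hli, v, hv, -, hvQ⟩ := hG₂ z hz (right_ne_zero_of_mul hzG)
    rw [hQe] at hvQ
    exact ⟨z, transversal_of_lin hm (fun i => (he i).1) hli hv
      (fun i => Finset.prod_ne_zero_iff.1 hvQ i (Finset.mem_univ i)),
      hG z hz (left_ne_zero_of_mul hzG)⟩

end Pool.Agent.Helper85.SZ
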