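import Pool.Agent.Helper85.SZ.Two

/-! The new arcs. -/

namespace Pool.Agent.Helper85.SZ

open MvPowerSeries Pool.Agent.Helper38.EQ Pool.Agent.Helper38.GP Pool.Agent.Helper85.SB

section

variable {d : ℕ} {K : Type} [Field K]

/-- Reparametrisation. -/
theorem exists_re [IsAlgClosed K] [CharZero K] {u w a b : WS d K} {m : ℕ}
    (ha : IsUnit a) (h1 : u = PowerSeries.X ^ m * a) (h2 : w = PowerSeries.X ^ m * b) {M' : ℕ}
    (hM' : M' ≠ 0) (hd : m ∣ M') :
    ∃ φ : WS d K →ₐ[K] WS d K, IsSub φ ∧ φ u = PowerSeries.X ^ M' ∧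
      PowerSeries.X ^ M' ∣ φ w := by
  obtain ⟨e, rfl⟩ := hd
  have he : e ≠ 0 := by
    rintro rfl
    exact hM' (Nat.mul_zero m)
  have hau : IsUnit (Pool.Agent.Helper38.SB.ramK he a) := ha.map _
  have hra := (isUnit_iff_res _).1 hau
  obtain ⟨r, hr⟩ := IsAlgClosed.exists_pow_nat_eq
    (res d K (Pool.Agent.Helper38.SB.ramK he a)) (Nat.pos_of_ne_zero hM')
  have hr0 : r ≠ 0 := by
    rintro rfl
    rw [zero_pow hM'] at hr
    exact hra hr.symm
  obtain ⟨v, hv, hvr⟩ := exists_root_res hM' _ r hr0 hr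
  have hvu : IsUnit v := by
    rw [isUnit_iff_res, hvr]
    exact hr0
  obtain ⟨ψ, hψ, hψC⟩ := exists_aut' hvu
  let φ : WS d K →ₐ[K] WS d K :=
    (ψ.symm : WS d K →ₐ[K] WS d K).comp (Pool.Agent.Helper38.SB.ramK he)
  have hu : φ u = PowerSeries.X ^ (m * e) := by
    change ψ.symm (Pool.Agent.Helper38.SB.ramK he u) = _
    rw [h1, map_mul, map_pow, ramK_X, ← pow_mul, mul_comm e m, ← hv, ← mul_pow, ← hψ, map_pow,
      AlgEquiv.symm_apply_apply]
  refine ⟨φ, (isSub_symm hvu hψ hψC).comp (isSub_ramK he), hu, ?_⟩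
  rw [← hu, h1, h2, map_mul, map_mul]
  obtain ⟨V, hV⟩ := ha.map φ
  rw [← hV]
  exact ⟨((V⁻¹ : (WS d K)ˣ) : WS d K) * φ b, by
    rw [mul_assoc, ← mul_assoc (V : WS d K), Units.mul_inv, one_mul]⟩

variable {g : MvPowerSeries (Fin (d + 2)) K} {I : Ideal (MvPowerSeries (Fin (d + 2)) K)}

theorem exists_index [IsAlgClosed K] [CharZero K] (A : Arcs0 g I) {c : K}
    (hA : ∀ l, ∃ (m : ℕ) (a b : WS d K), 1 ≤ m ∧ IsUnit a ∧
      A.G l (A.x + C c * A.y) = PowerSeries.X ^ m * a ∧ A.G l A.y = PowerSeries.X ^ m * b) :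
    ∃ (M' N' : ℕ) (H : Fin N' → (MvPowerSeries (Fin (d + 2)) K →ₐ[K] WS d K)),
      M' ≠ 0 ∧ Function.Injective H ∧ (∀ k, Good A c M' (H k)) ∧
      (∀ k, PowerSeries.X ^ M' ∣ H k A.y) ∧
      (∀ l, ∃ φ, IsSub φ ∧ ∃ k, H k = φ.comp (A.G l)) ∧
      ∀ ζ : K, ζ ^ M' = 1 → ∀ k, ∃ k', (rotK ζ).comp (H k) = H k' := by
  classical
  choose m a b hm ha h1 h2 using hA
  let M' : ℕ := ∏ l, m l
  have hM' : M' ≠ 0 := Finset.prod_ne_zero_iff.2 fun l _ => by have := hm l; omega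
  have hdvd : ∀ l, m l ∣ M' := fun l => Finset.dvd_prod_of_mem m (Finset.mem_univ l)
  choose φ hφ hφ1 hφ2 using fun l => exists_re (ha l) (h1 l) (h2 l) hM' (hdvd l)
  let Λ : Finset (MvPowerSeries (Fin (d + 2)) K →ₐ[K] WS d K) :=
    ((Finset.univ : Finset (Fin A.N)) ×ˢ Polynomial.nthRootsFinset M' (1 : K)).image
      fun q => (rotK q.2).comp ((φ q.1).comp (A.G q.1))
  have hΛ : ∀ H, H ∈ Λ ↔ ∃ l, ∃ ζ : K, ζ ^ M' = 1 ∧
      (rotK ζ).comp ((φ l).comp (A.G l)) = H := by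
    intro H
    simp only [Λ, Finset.mem_image, Finset.mem_product, Finset.mem_univ, true_and,
      Polynomial.mem_nthRootsFinset (Nat.pos_of_ne_zero hM'), Prod.exists]
  have hz : ∀ ζ : K, ζ ^ M' = 1 → ζ ≠ 0 := by
    rintro ζ h rfl
    rw [zero_pow hM'] at h
    exact zero_ne_one h
  have hrotX : ∀ ζ : K, ζ ^ M' = 1 →
      rotK ζ (PowerSeries.X ^ M' : WS d K) = PowerSeries.X ^ M' := by
    intro ζ h
    rw [map_pow, rotK_X, mul_pow, ← map_pow, ← map_pow, h, map_one, map_one, one_mul]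
  refine ⟨M', Λ.card, fun k => (Λ.equivFin.symm k :
    MvPowerSeries (Fin (d + 2)) K →ₐ[K] WS d K), hM',
    fun k k' h => Λ.equivFin.symm.injective (Subtype.ext h), fun k => ?_, fun k => ?_,
    fun l => ?_, fun ζ hζ k => ?_⟩
  · obtain ⟨l, ζ, hζ, hH⟩ := (hΛ _).1 (Λ.equivFin.symm k).2
    refine ⟨l, (rotK ζ).comp (φ l), (isSub_rotK (hz ζ hζ)).comp (hφ l), ?_, ?_⟩
    · change (Λ.equivFin.symm k : MvPowerSeries (Fin (d + 2)) K →ₐ[K] WS d K) = _
      rw [← hH]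
      rfl
    · change (Λ.equivFin.symm k : MvPowerSeries (Fin (d + 2)) K →ₐ[K] WS d K) _ = _
      rw [← hH]
      change rotK ζ (φ l (A.G l (A.x + C c * A.y))) = _
      rw [hφ1, hrotX ζ hζ]
  · obtain ⟨l, ζ, hζ, hH⟩ := (hΛ _).1 (Λ.equivFin.symm k).2
    change _ ∣ (Λ.equivFin.symm k : MvPowerSeries (Fin (d + 2)) K →ₐ[K] WS d K) _
    rw [← hH]
    change _ ∣ rotK ζ (φ l (A.G l A.y))
    rw [← hrotX ζ hζ]
    exact map_dvd _ (hφ2 l)
  · refine ⟨φ l, hφ l, ?_⟩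
    have h3 : (φ l).comp (A.G l) ∈ Λ := by
      rw [hΛ]
      refine ⟨l, 1, one_pow _, ?_⟩
      have h4 : (rotK (1 : K)) = AlgHom.id K (WS d K) := by
        apply hom_eq
        · rw [rotK_X, map_one, map_one, one_mul]
          rfl
        · intro j
          rw [rotK_C]
          rfl
      rw [h4, AlgHom.id_comp]
    refine ⟨Λ.equivFin ⟨_, h3⟩, ?_⟩
    change ((Λ.equivFin.symm (Λ.equivFin ⟨_, h3⟩) : { x // x ∈ Λ }) :
      MvPowerSeries (Fin (d + 2)) K →ₐ[K] WS d K) = _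
    rw [Equiv.symm_apply_apply]
  · obtain ⟨l, ζ', hζ', hH⟩ := (hΛ _).1 (Λ.equivFin.symm k).2
    have h3 : (rotK ζ).comp (Λ.equivFin.symm k :
        MvPowerSeries (Fin (d + 2)) K →ₐ[K] WS d K) ∈ Λ := by
      rw [hΛ]
      refine ⟨l, ζ * ζ', by rw [mul_pow, hζ, hζ', one_mul], ?_⟩
      have h5 : (rotK (ζ * ζ') : WS d K →ₐ[K] WS d K) = (rotK ζ).comp (rotK ζ') := by
        apply hom_eq
        · rw [AlgHom.comp_apply, rotK_X, rotK_X, map_mul C, map_mul PowerSeries.C,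
            map_mul (rotK ζ), rotK_C, rotK_X]
          ring
        · intro j
          rw [AlgHom.comp_apply, rotK_C, rotK_C, rotK_C]
      rw [← hH, h5, AlgHom.comp_assoc]
    refine ⟨Λ.equivFin ⟨_, h3⟩, ?_⟩
    change _ = ((Λ.equivFin.symm (Λ.equivFin ⟨_, h3⟩) : { x // x ∈ Λ }) :
      MvPowerSeries (Fin (d + 2)) K →ₐ[K] WS d K)
    rw [Equiv.symm_apply_apply]

end

/-- Coordinates generate the maximal ideal. -/
theorem span_of_linIndep {n : ℕ} {K : Type} [Field K] {ι' : Type}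
    {h : ι' → MvPowerSeries (Fin n) K} (hh : LinIndep h) (e : ι' ≃ Fin n) :
    Ideal.span (Set.range h) = IsLocalRing.maximalIdeal (MvPowerSeries (Fin n) K) := by
  obtain ⟨τ, hτ⟩ := Pool.Agent.Helper80.SP.exists_coords hh e
  apply le_antisymm
  · rw [Ideal.span_le]
    rintro _ ⟨i, rfl⟩
    exact (mem_maximalIdeal_iff_constantCoeff _).2 (hh.1 i)
  · intro x hx
    have h1 : τ.symm x ∈ IsLocalRing.maximalIdeal (MvPowerSeries (Fin n) K) := by
      rw [IsLocalRing.mem_maximalIdeal, mem_nonunits_iff] at hx ⊢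
      intro hu
      apply hx
      have h2 := hu.map τ
      rwa [AlgEquiv.apply_symm_apply] at h2
    rw [maximalIdeal_eq_span_X] at h1
    have h2 : Ideal.span (Set.range fun i => (X i : MvPowerSeries (Fin n) K)) ≤
        Ideal.comap (τ : MvPowerSeries (Fin n) K →+* MvPowerSeries (Fin n) K)
          (Ideal.span (Set.range h)) := by
      rw [Ideal.span_le]
      rintro _ ⟨i, rfl⟩
      change τ (X i) ∈ Ideal.span (Set.range h)
      have h3 := hτ (e.symm i)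
      rw [e.apply_symm_apply] at h3
      rw [h3]
      exact Ideal.subset_span ⟨_, rfl⟩
    have h3 : τ (τ.symm x) ∈ Ideal.span (Set.range h) := h2 h1
    rwa [AlgEquiv.apply_symm_apply] at h3

/-- The new coordinates. -/
theorem exists_newproj {d : ℕ} {K : Type} [Field K] {x y : MvPowerSeries (Fin (d + 2)) K}
    {t : Fin d → MvPowerSeries (Fin (d + 2)) K} (li : LinIndep (Sum.elim ![x, y] t)) (c : K) :
    ∃ p : Proj (d + 1) K, p.σ (x + C c * y) = PowerSeries.C (X 0) ∧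
      (∀ j, p.σ (t j) = PowerSeries.C (X j.succ)) ∧ p.σ y = PowerSeries.X := by
  let z : Fin (d + 2) → MvPowerSeries (Fin (d + 2)) K := Fin.cons y (Fin.cons (x + C c * y) t)
  have hz0 : z 0 = y := rfl
  have hz1 : z (Fin.succ 0) = x + C c * y := rfl
  have hz2 : ∀ j : Fin d, z j.succ.succ = t j := fun j => rfl
  have hspan : Ideal.span (Set.range z) =
      IsLocalRing.maximalIdeal (MvPowerSeries (Fin (d + 2)) K) := by
    rw [← span_of_linIndep li (finSumFinEquiv.trans (finCongr (Nat.add_comm 2 d)))]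
    have hyz : y ∈ Ideal.span (Set.range z) := Ideal.subset_span ⟨0, hz0⟩
    have hyh : y ∈ Ideal.span (Set.range (Sum.elim ![x, y] t)) :=
      Ideal.subset_span ⟨Sum.inl 1, rfl⟩
    have hxh : x ∈ Ideal.span (Set.range (Sum.elim ![x, y] t)) :=
      Ideal.subset_span ⟨Sum.inl 0, rfl⟩
    have hx : x ∈ Ideal.span (Set.range z) := by
      have h1 : x + C c * y ∈ Ideal.span (Set.range z) := Ideal.subset_span ⟨_, hz1⟩
      have h2 := Ideal.sub_mem _ h1 (Ideal.mul_mem_left _ (C c) hyz)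
      rwa [add_sub_cancel_right] at h2
    apply le_antisymm
    · rw [Ideal.span_le]
      rintro _ ⟨i, rfl⟩
      refine Fin.cases ?_ (fun i => ?_) i
      · exact hyh
      · refine Fin.cases ?_ (fun i => ?_) i
        · exact Ideal.add_mem _ hxh (Ideal.mul_mem_left _ _ hyh)
        · exact Ideal.subset_span ⟨Sum.inr i, rfl⟩
    · rw [Ideal.span_le]
      rintro _ ⟨i | j, rfl⟩
      · fin_cases i
        · exact hx
        · exact hyz
      · exact Ideal.subset_span ⟨j.succ.succ, rfl⟩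
  obtain ⟨τ, hτ⟩ := exists_algEquiv z hspan
  refine ⟨⟨τ.symm.trans (finSuccEquiv K (d + 1))⟩, ?_, fun j => ?_, ?_⟩
  · change finSuccEquiv K (d + 1) (τ.symm (x + C c * y)) = _
    rw [← hz1, ← hτ, AlgEquiv.symm_apply_apply, finSuccEquiv_X_succ]
  · change finSuccEquiv K (d + 1) (τ.symm (t j)) = _
    rw [← hz2, ← hτ, AlgEquiv.symm_apply_apply, finSuccEquiv_X_succ]
  · change finSuccEquiv K (d + 1) (τ.symm y) = _
    conv_lhs => rw [← hz0, ← hτ]
    rw [AlgEquiv.symm_apply_apply, finSuccEquiv_X_zero]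

end Pool.Agent.Helper85.SZ
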