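import Pool.Agent.Helper85.SZ.Dat
import Pool.Agent.Helper85.SB.S

/-! The double curves, if the second projection is arbitrary. -/

namespace Pool.Agent.Helper85.SZ

open MvPowerSeries Pool.Agent.Helper38.EQ Pool.Agent.Helper38.GP Pool.Agent.Helper85.SB

theorem fam_of_dat {d : ℕ} {K : Type} [Field K] [IsAlgClosed K] [CharZero K]
    {g : MvPowerSeries (Fin (d + 2)) K} {I : Ideal (MvPowerSeries (Fin (d + 2)) K)}
    (D : Pool.Agent.Helper38.SB.Dat g I) : Nonempty (Fam g I) := by
  classical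
  obtain ⟨b, hb⟩ := D.exists_b
  refine ⟨⟨D.P.natDegree, D.M, D.two, Nat.one_le_iff_ne_zero.2 D.hM, D.x, D.y, D.t, D.hI', D.li',
    D.G, b, D.G_x, hb, D.G_t, D.G_diff, D.dich, ?_, D.G_g⟩⟩
  intro h k hh
  let L : Finset (Fin D.P.natDegree) := Finset.univ.filter fun l => D.G l h = 0
  have hL : ∀ l, l ∈ L ↔ D.G l h = 0 := fun l => by simp [L]
  obtain ⟨H, hH⟩ := D.exists_prod hh L hL
  exact ⟨_, Pool.Agent.Helper38.SB.Dat.radical_eq hh hL hH, L, hL, D.hasOrd L hH⟩

/-- Zariski's theorem in codimension one, in the form of (J): the second projection is arbitrary. -/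
theorem exists_fam' {d : ℕ} {K : Type} [Field K] [IsAlgClosed K] [CharZero K] {𝒞 : ProjClass K}
    {g : MvPowerSeries (Fin (d + 2)) K} {I : Ideal (MvPowerSeries (Fin (d + 2)) K)}
    (h : Equi 𝒞 1 (d + 2) g I)
    (hg : g ∈ IsLocalRing.maximalIdeal (MvPowerSeries (Fin (d + 2)) K) ^ 2) :
    Nonempty (Fam g I) := by
  obtain ⟨A⟩ := Pool.Agent.Helper38.SZ.exists_arcs0 h
  obtain ⟨D⟩ := exists_dat' A hg
  exact fam_of_dat D

/-- (S) with an arbitrary second projection; the critical variety is singular. -/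
theorem exists_sfam' {d m : ℕ} {K : Type} [Field K] [IsAlgClosed K] [CharZero K]
    {𝒞 : ProjClass K} {e : Fin m → MvPowerSeries (Fin (d + 3)) K}
    (he : ∀ i, e i ∈ IsLocalRing.maximalIdeal (MvPowerSeries (Fin (d + 3)) K) ∧
      e i ∉ IsLocalRing.maximalIdeal (MvPowerSeries (Fin (d + 3)) K) ^ 2)
    {I : Ideal (MvPowerSeries (Fin (d + 3)) K)} (hf : ∏ i, e i ∈ I)
    {z : Fin (d + 2) → MvPowerSeries (Fin (d + 3)) K} (hT : Transversal (∏ i, e i) z)
    (hpar : IsParams (∏ i, e i) z) (hperm : Permissible I z)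
    {g : MvPowerSeries (Fin (d + 2)) K} {I' : Ideal (MvPowerSeries (Fin (d + 2)) K)}
    (hc : IsCrit (∏ i, e i) I z g I') (hE : Equi 𝒞 1 (d + 2) g I')
    (hg : g ∈ IsLocalRing.maximalIdeal (MvPowerSeries (Fin (d + 2)) K) ^ 2) :
    Nonempty (SFam e I) := by
  classical
  have hchar : CharZero K := inferInstance
  have hinf : Infinite K := inferInstance
  obtain ⟨σ, F, hσ, ⟨U, hU⟩, hred, hI'⟩ := hc
  have hItop : I ≠ ⊤ := by
    intro hI
    apply hE.ne_top
    rw [hI', Coord.image, hI, Ideal.map_top, Ideal.comap_top]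
  let p : Proj (d + 2) K := ⟨σ.equiv⟩
  have hz : LinIndep z := hpar.1
  have hp : ∀ i, p.σ (z i) = PowerSeries.C (X i) := hσ
  have ht : ∀ i, p.tr (e i) ≠ 0 := Pool.Agent.Helper80.SP.tr_ne_of_transversal hz p hp he hT
  have hs : ∀ i, Nonempty (Sec p (e i)) := fun i => exists_sec p _ (he i).1 (ht i)
  let s : ∀ i, Sec p (e i) := fun i => (hs i).some
  have hF : F = ∏ i, (Polynomial.X - Polynomial.C (s i).r) := by
    refine factor_unique s (Associated.refl (∏ i, e i)) (U := U) ?_
    rw [ex_eq]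
    exact hU
  obtain ⟨τ, hτ, hτI⟩ := exists_graph p hz hp hItop hperm
  have hI'' : I' = p.img I := hI'
  subst hI''
  obtain ⟨Fm⟩ := exists_fam' hE hg
  have hdisc := Pool.Agent.Helper38.ED.discr_prod fun i => (s i).r
  rw [← hF] at hdisc
  have hgF : g ∣ F.discr := by
    have h1 : F.discr ∈ (Ideal.span {F.discr}).radical :=
      Ideal.le_radical (Ideal.mem_span_singleton_self _)
    rw [← show Ideal.span {g} = (Ideal.span {F.discr}).radical from hred] at h1
    exact Ideal.mem_span_singleton.1 h1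
  obtain ⟨k₀, hk₀⟩ : ∃ k, F.discr ∣ g ^ k := by
    have h1 : g ∈ (Ideal.span {F.discr}).radical := by
      rw [← show Ideal.span {g} = (Ideal.span {F.discr}).radical from hred]
      exact Ideal.mem_span_singleton_self _
    obtain ⟨k, hk⟩ := h1
    exact ⟨k, Ideal.mem_span_singleton.1 hk⟩
  let D : Pool.Agent.Helper80.SP.Data e I :=
    { p := p
      s := s
      g := g
      k₀ := k₀
      dvd := fun i j hij => by
        refine Dvd.dvd.trans ?_ (hdisc.symm.dvd.trans hk₀)
        refine Dvd.dvd.trans ?_ (Finset.dvd_prod_of_mem _ (Finset.mem_univ i))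
        exact Finset.dvd_prod_of_mem (fun j => (s i).r - (s j).r)
          (Finset.mem_filter.2 ⟨Finset.mem_univ _, hij.symm⟩)
      ex := fun δ hδ => by
        have h1 : δ (∏ i, ∏ j ∈ Finset.univ.filter (fun j => j ≠ i), ((s i).r - (s j).r)) = 0 := by
          have h2 := map_dvd δ (hgF.trans hdisc.dvd)
          rw [hδ, zero_dvd_iff] at h2
          exact h2
        rw [map_prod, Finset.prod_eq_zero_iff] at h1
        obtain ⟨i, -, h2⟩ := h1
        rw [map_prod, Finset.prod_eq_zero_iff] at h2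
        obtain ⟨j, hj, h3⟩ := h2
        rw [map_sub] at h3
        exact ⟨i, j, (Finset.mem_filter.1 hj).2, h3⟩
      mem := hf
      τ := τ
      τ_mem := hτ
      τI := hτI
      F := Fm }
  exact D.exists_sfam

end Pool.Agent.Helper85.SZ
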