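import Pool.Agent.Helper85.SZ.Defs
import Pool.Agent.Helper85.SB.D2

/-! Substitutions in `K⟦w⟧⟦s⟧`. -/

namespace Pool.Agent.Helper85.SZ

open MvPowerSeries Pool.Agent.Helper38.EQ Pool.Agent.Helper38.GP Pool.Agent.Helper85.SB

section

variable {d : ℕ} {K : Type} [Field K]

/-- A substitution `s ↦ σ` which fixes the parameters, `σ` a power of `s` up to a unit. -/
def IsSub (φ : WS d K →ₐ[K] WS d K) : Prop :=
  (∀ j : Fin d, φ (PowerSeries.C (X j)) = PowerSeries.C (X j)) ∧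
    ∃ k, 1 ≤ k ∧ Associated (φ PowerSeries.X) (PowerSeries.X ^ k)

theorem hom_eq {φ φ' : WS d K →ₐ[K] WS d K} (h1 : φ PowerSeries.X = φ' PowerSeries.X)
    (h2 : ∀ j : Fin d, φ (PowerSeries.C (X j)) = φ' (PowerSeries.C (X j))) : φ = φ' := by
  apply AlgHom.ext
  intro x
  have h3 := homW_sub_mem φ φ' ⊥ (by rw [h1, sub_self]; exact Ideal.zero_mem _)
    (fun j => by rw [h2, sub_self]; exact Ideal.zero_mem _) x
  exact sub_eq_zero.1 ((Submodule.mem_bot _).1 h3)

theorem homN_eq {n : ℕ} {G G' : MvPowerSeries (Fin n) K →ₐ[K] WS d K}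
    (h : ∀ i, G (X i) = G' (X i)) : G = G' := by
  apply AlgHom.ext
  intro x
  have h3 := Pool.Agent.Helper80.SP.hom_sub_mem G G' ⊥
    (fun j => by rw [h, sub_self]; exact Ideal.zero_mem _) x
  exact sub_eq_zero.1 ((Submodule.mem_bot _).1 h3)

theorem sub_C {φ : WS d K →ₐ[K] WS d K}
    (h : ∀ j : Fin d, φ (PowerSeries.C (X j)) = PowerSeries.C (X j))
    (a : MvPowerSeries (Fin d) K) : φ (PowerSeries.C a) = PowerSeries.C a := by
  have h1 : φ.comp (IsScalarTower.toAlgHom K (MvPowerSeries (Fin d) K) (WS d K)) =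
      IsScalarTower.toAlgHom K (MvPowerSeries (Fin d) K) (WS d K) :=
    homN_eq fun j => h j
  exact DFunLike.congr_fun h1 a

theorem rotK_X (ζ : K) : rotK ζ (PowerSeries.X : WS d K) = PowerSeries.C (C ζ) * PowerSeries.X := by
  rw [rotK_apply]
  ext1 n
  rw [coeff_rot, PowerSeries.coeff_C_mul, PowerSeries.coeff_X]
  split_ifs with h
  · rw [h, pow_one]
  · rw [mul_zero, mul_zero]

theorem rotK_C (ζ : K) (a : MvPowerSeries (Fin d) K) :
    rotK ζ (PowerSeries.C a : WS d K) = PowerSeries.C a := by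
  rw [rotK_apply]
  ext1 n
  rw [coeff_rot, PowerSeries.coeff_C]
  split_ifs with h
  · rw [h, pow_zero, map_one, one_mul]
  · rw [mul_zero]

theorem isUnit_CC {ζ : K} (hζ : ζ ≠ 0) : IsUnit (PowerSeries.C (C ζ) : WS d K) := by
  rw [isUnit_iff_res, res_C, constantCoeff_C]
  exact hζ

theorem isSub_rotK {ζ : K} (hζ : ζ ≠ 0) : IsSub (rotK (d := d) ζ) := by
  refine ⟨fun j => rotK_C ζ _, 1, le_rfl, ?_⟩
  rw [rotK_X, pow_one]
  exact (associated_unit_mul_left _ _ (isUnit_CC hζ))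

theorem IsSub.assoc {φ : WS d K →ₐ[K] WS d K} (hφ : IsSub φ) {u : WS d K} {k : ℕ}
    (h : Associated u (PowerSeries.X ^ k)) : ∃ k', Associated (φ u) (PowerSeries.X ^ k') := by
  obtain ⟨-, j, -, hj⟩ := hφ
  refine ⟨j * k, ?_⟩
  have h1 := h.map φ
  rw [map_pow] at h1
  rw [pow_mul]
  exact h1.trans (hj.pow_pow)

theorem IsSub.assoc' {φ : WS d K →ₐ[K] WS d K} (hφ : IsSub φ) {u : WS d K} {k : ℕ} (hk : 1 ≤ k)
    (h : Associated u (PowerSeries.X ^ k)) :
    ∃ k', 1 ≤ k' ∧ Associated (φ u) (PowerSeries.X ^ k') := by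
  obtain ⟨-, j, hj1, hj⟩ := hφ
  refine ⟨j * k, Nat.mul_pos hj1 hk, ?_⟩
  have h1 := h.map φ
  rw [map_pow] at h1
  rw [pow_mul]
  exact h1.trans (hj.pow_pow)

theorem IsSub.comp {φ φ' : WS d K →ₐ[K] WS d K} (hφ : IsSub φ) (hφ' : IsSub φ') :
    IsSub (φ.comp φ') := by
  obtain ⟨k, hk, h⟩ := hφ'.2
  refine ⟨fun j => ?_, ?_⟩
  · rw [AlgHom.comp_apply, hφ'.1, hφ.1]
  · rw [AlgHom.comp_apply]
    exact hφ.assoc' hk h

theorem IsSub.injective {φ : WS d K →ₐ[K] WS d K} (hφ : IsSub φ) : Function.Injective φ := by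
  rw [injective_iff_map_eq_zero]
  intro f hf
  by_contra hne
  obtain ⟨j, y, hy, hy0⟩ := exists_eq_pow_mul hne
  obtain ⟨h1, k, hk, h2⟩ := hφ
  rw [hy, map_mul, map_pow] at hf
  have hX : φ PowerSeries.X ≠ 0 := by
    intro h0
    rw [h0] at h2
    exact pow_ne_zero k PowerSeries.X_ne_zero ((associated_zero_iff_eq_zero _).1 h2.symm)
  have hy1 : φ y = 0 := (mul_eq_zero.1 hf).resolve_left (pow_ne_zero j hX)
  apply hy0
  have h3 : (PowerSeries.X : WS d K) ∣ y - PowerSeries.C (PowerSeries.constantCoeff y) := by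
    rw [PowerSeries.X_dvd_iff, map_sub, PowerSeries.constantCoeff_C, sub_self]
  obtain ⟨q, hq⟩ := h3
  have h4 : φ y = PowerSeries.C (PowerSeries.constantCoeff y) + φ PowerSeries.X * φ q := by
    have h5 : y = PowerSeries.C (PowerSeries.constantCoeff y) + PowerSeries.X * q := by
      rw [← hq]; ring
    conv_lhs => rw [h5]
    rw [map_add, map_mul, sub_C h1]
  have h6 : PowerSeries.constantCoeff (φ PowerSeries.X) = 0 := by
    rw [← PowerSeries.X_dvd_iff]
    refine Dvd.dvd.trans ?_ h2.symm.dvd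
    exact dvd_pow_self _ (by omega)
  have h7 := congrArg PowerSeries.constantCoeff h4
  rw [hy1, map_zero, map_add, PowerSeries.constantCoeff_C, map_mul, h6, zero_mul, add_zero] at h7
  exact h7.symm

/-- Automorphisms `s ↦ s v` with `v` a unit. -/
theorem exists_aut' {v : WS d K} (hv : IsUnit v) :
    ∃ ψ : WS d K ≃ₐ[K] WS d K, ψ PowerSeries.X = PowerSeries.X * v ∧
      ∀ j, ψ (PowerSeries.C (X j)) = PowerSeries.C (X j) := by
  apply exists_aut
  · rw [map_mul, res_X, zero_mul]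
  · intro j
    rw [res_C, constantCoeff_X]
  · apply mW_le
    · apply Ideal.mem_sup_left
      rw [Ideal.mem_span_singleton]
      obtain ⟨V, hV⟩ := hv
      exact ⟨((V⁻¹ : (WS d K)ˣ) : WS d K), by rw [← hV, mul_assoc, Units.mul_inv, mul_one]⟩
    · intro j
      exact Ideal.mem_sup_right (Ideal.subset_span ⟨j, rfl⟩)

theorem isSub_symm {v : WS d K} (hv : IsUnit v) {ψ : WS d K ≃ₐ[K] WS d K}
    (h1 : ψ PowerSeries.X = PowerSeries.X * v)
    (h2 : ∀ j, ψ (PowerSeries.C (X j)) = PowerSeries.C (X j)) :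
    IsSub (ψ.symm : WS d K →ₐ[K] WS d K) := by
  refine ⟨fun j => ?_, 1, le_rfl, ?_⟩
  · change ψ.symm _ = _
    apply ψ.injective
    rw [AlgEquiv.apply_symm_apply, h2]
  · change Associated (ψ.symm PowerSeries.X) _
    rw [pow_one]
    have h6 : ψ.symm PowerSeries.X * ψ.symm v = PowerSeries.X := by
      rw [← map_mul, ← h1, AlgEquiv.symm_apply_apply]
    obtain ⟨V, hV⟩ := hv.map ψ.symm
    exact ⟨V, by rw [hV]; exact h6⟩

theorem ramK_X {M : ℕ} (hM : M ≠ 0) :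
    Pool.Agent.Helper38.SB.ramK hM (PowerSeries.X : WS d K) = PowerSeries.X ^ M := by
  rw [Pool.Agent.Helper38.SB.ramK_apply, ram_apply]
  exact PowerSeries.expand_X M hM

theorem ramK_C {M : ℕ} (hM : M ≠ 0) (a : MvPowerSeries (Fin d) K) :
    Pool.Agent.Helper38.SB.ramK hM (PowerSeries.C a : WS d K) = PowerSeries.C a := by
  rw [Pool.Agent.Helper38.SB.ramK_apply, Pool.Agent.Helper38.SB.ram_C]

theorem isSub_ramK {M : ℕ} (hM : M ≠ 0) :
    IsSub (Pool.Agent.Helper38.SB.ramK hM : WS d K →ₐ[K] WS d K) :=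
  ⟨fun j => ramK_C hM _, M, Nat.one_le_iff_ne_zero.2 hM, by rw [ramK_X]⟩

/-- A divisor of something associated to a power of `s` is a power of `s` up to a unit. -/
theorem pow_of_dvd {x y : WS d K} {k : ℕ} (h : Associated y (PowerSeries.X ^ k)) (hx : x ∣ y) :
    ∃ j, Associated x (PowerSeries.X ^ j) := by
  obtain ⟨j, -, hj⟩ := (dvd_prime_pow PowerSeries.X_prime k).1 (hx.trans h.dvd)
  exact ⟨j, hj⟩

end

end Pool.Agent.Helper85.SZ
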