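import Pool.Agent.Helper85.SZ.Sub

/-! The differences of the reparametrised arcs. -/

namespace Pool.Agent.Helper85.SZ

open MvPowerSeries Pool.Agent.Helper38.EQ Pool.Agent.Helper38.GP Pool.Agent.Helper85.SB

section

variable {d : ℕ} {K : Type} [Field K]

/-- The constants. -/
noncomputable def ι (d : ℕ) (K : Type) [Field K] : K →+* WS d K :=
  (PowerSeries.C (R := MvPowerSeries (Fin d) K)).comp C

theorem ι_apply (a : K) : ι d K a = PowerSeries.C (C a) := rfl

theorem ι_injective : Function.Injective (ι d K) := RingHom.injective _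

theorem isPrim [IsAlgClosed K] [CharZero K] {m : ℕ} (hm : m ≠ 0) :
    ∃ ζ : K, IsPrimitiveRoot ζ m ∧ IsPrimitiveRoot (ι d K ζ) m := by
  have : NeZero (m : K) := ⟨Nat.cast_ne_zero.2 hm⟩
  obtain ⟨ζ, hζ⟩ := HasEnoughRootsOfUnity.exists_primitiveRoot K m
  exact ⟨ζ, hζ, hζ.map_of_injective ι_injective⟩

theorem exists_root_unity [IsAlgClosed K] [CharZero K] {m : ℕ} (hm : m ≠ 0) {ξ : WS d K}
    (hξ : ξ ^ m = 1) : ∃ ζ : K, ζ ^ m = 1 ∧ ξ = PowerSeries.C (C ζ) := by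
  have : NeZero m := ⟨hm⟩
  obtain ⟨ζ, h1, h2⟩ := isPrim (d := d) (K := K) hm
  obtain ⟨i, -, hi⟩ := h2.eq_pow_of_pow_eq_one hξ
  refine ⟨ζ ^ i, ?_, ?_⟩
  · rw [← pow_mul, mul_comm, pow_mul, h1.pow_eq_one, one_pow]
  · rw [← hi, ← map_pow]
    rfl

theorem pow_sub_pow' [IsAlgClosed K] [CharZero K] {m : ℕ} (hm : m ≠ 0) (x y : WS d K) :
    x ^ m - y ^ m = ∏ ξ ∈ Polynomial.nthRootsFinset m (1 : WS d K), (x - ξ * y) := by
  obtain ⟨ζ, -, h2⟩ := isPrim (d := d) (K := K) hm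
  exact h2.pow_sub_pow_eq_prod_sub_mul x y (Nat.pos_of_ne_zero hm)

theorem exists_mul_of_pow_eq [IsAlgClosed K] [CharZero K] {m : ℕ} (hm : m ≠ 0) {x y : WS d K}
    (h : x ^ m = y ^ m) : ∃ ζ : K, ζ ^ m = 1 ∧ x = PowerSeries.C (C ζ) * y := by
  have h1 := pow_sub_pow' hm x y
  rw [h, sub_self] at h1
  obtain ⟨ξ, hξ, h2⟩ := Finset.prod_eq_zero_iff.1 h1.symm
  rw [Polynomial.mem_nthRootsFinset (Nat.pos_of_ne_zero hm)] at hξ
  obtain ⟨ζ, hζ, rfl⟩ := exists_root_unity hm hξ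
  exact ⟨ζ, hζ, sub_eq_zero.1 h2⟩

theorem sub_dvd (φ φ' : WS d K →ₐ[K] WS d K)
    (h : ∀ j : Fin d, φ (PowerSeries.C (X j)) = φ' (PowerSeries.C (X j))) (x : WS d K) :
    φ PowerSeries.X - φ' PowerSeries.X ∣ φ x - φ' x := by
  rw [← Ideal.mem_span_singleton]
  exact homW_sub_mem φ φ' _ (Ideal.mem_span_singleton_self _)
    (fun j => by rw [h, sub_self]; exact Ideal.zero_mem _) x

/-- Two substitutions which agree on `s ^ m a`, `a` a unit. -/
theorem two_sub [IsAlgClosed K] [CharZero K] {φ φ' : WS d K →ₐ[K] WS d K} (hφ : IsSub φ)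
    (hφ' : IsSub φ') {m : ℕ} (hm : 1 ≤ m) {a : WS d K} (ha : IsUnit a)
    (h : φ (PowerSeries.X ^ m * a) = φ' (PowerSeries.X ^ m * a)) :
    φ = φ' ∨ ∃ k, Associated (φ PowerSeries.X - φ' PowerSeries.X) (PowerSeries.X ^ k) := by
  have hm0 : m ≠ 0 := by omega
  have hra : res d K a ≠ 0 := (isUnit_iff_res _).1 ha
  obtain ⟨r, hr⟩ := IsAlgClosed.exists_pow_nat_eq (res d K a) hm
  have hr0 : r ≠ 0 := by
    rintro rfl
    rw [zero_pow hm0] at hr
    exact hra hr.symm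
  obtain ⟨v, hv, hvr⟩ := exists_root_res hm0 a r hr0 hr
  have hvu : IsUnit v := by
    rw [isUnit_iff_res, hvr]
    exact hr0
  have h1 : (φ (PowerSeries.X * v)) ^ m = (φ' (PowerSeries.X * v)) ^ m := by
    rw [← map_pow, ← map_pow, mul_pow, hv]
    exact h
  obtain ⟨ζ, hζ, h2⟩ := exists_mul_of_pow_eq hm0 h1
  by_cases hζ1 : ζ = 1
  · left
    rw [hζ1, map_one, map_one, one_mul] at h2
    obtain ⟨ψ, hψ, hψC⟩ := exists_aut' hvu
    have h3 : φ.comp (ψ : WS d K →ₐ[K] WS d K) = φ'.comp (ψ : WS d K →ₐ[K] WS d K) := by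
      apply hom_eq
      · change φ (ψ _) = φ' (ψ _)
        rw [hψ, h2]
      · intro j
        change φ (ψ _) = φ' (ψ _)
        rw [hψC, hφ.1, hφ'.1]
    apply AlgHom.ext
    intro x
    have h4 := DFunLike.congr_fun h3 (ψ.symm x)
    change φ (ψ (ψ.symm x)) = φ' (ψ (ψ.symm x)) at h4
    rwa [AlgEquiv.apply_symm_apply] at h4
  · right
    have h3 : φ (PowerSeries.X * v) - φ' (PowerSeries.X * v) =
        PowerSeries.C (C (ζ - 1)) * φ' (PowerSeries.X * v) := by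
      rw [h2, map_sub, map_sub, map_one, map_one]
      ring
    have h4 : Associated (PowerSeries.X * v) (PowerSeries.X ^ 1 : WS d K) := by
      rw [pow_one]
      exact (associated_mul_unit_left _ _ hvu)
    obtain ⟨k, hk⟩ := hφ'.assoc h4
    have h5 : Associated (φ (PowerSeries.X * v) - φ' (PowerSeries.X * v)) (PowerSeries.X ^ k) := by
      rw [h3]
      exact (associated_unit_mul_left _ _ (isUnit_CC (sub_ne_zero.2 hζ1))).trans hk
    exact pow_of_dvd h5 (sub_dvd φ φ' (fun j => by rw [hφ.1, hφ'.1]) _)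

theorem prod_pow {ι' : Type} (s : Finset ι') (f : ι' → WS d K)
    (h : ∀ i ∈ s, ∃ k, Associated (f i) (PowerSeries.X ^ k)) :
    ∃ k, Associated (∏ i ∈ s, f i) (PowerSeries.X ^ k : WS d K) := by
  classical
  induction s using Finset.induction_on with
  | empty => exact ⟨0, by simp⟩
  | insert a s ha ih =>
    obtain ⟨k, hk⟩ := ih fun i hi => h i (Finset.mem_insert_of_mem hi)
    obtain ⟨j, hj⟩ := h a (Finset.mem_insert_self a s)
    refine ⟨j + k, ?_⟩
    rw [Finset.prod_insert ha, pow_add]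
    exact hj.mul_mul hk

theorem rotK_comp {ζ : K} (hζ : ζ ≠ 0) : (rotK ζ).comp (rotK ζ⁻¹) = AlgHom.id K (WS d K) := by
  apply hom_eq
  · rw [AlgHom.comp_apply, rotK_X, map_mul, rotK_C, rotK_X, ← mul_assoc, ← map_mul, ← map_mul,
      inv_mul_cancel₀ hζ, map_one, map_one, one_mul]
    rfl
  · intro j
    rw [AlgHom.comp_apply, rotK_C, rotK_C]
    rfl

variable {g : MvPowerSeries (Fin (d + 2)) K} {I : Ideal (MvPowerSeries (Fin (d + 2)) K)}

/-- An arc obtained by a substitution, on which `x + c y` is `s ^ M'`. -/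
def Good (A : Arcs0 g I) (c : K) (M' : ℕ)
    (H : MvPowerSeries (Fin (d + 2)) K →ₐ[K] WS d K) : Prop :=
  ∃ l φ, IsSub φ ∧ H = φ.comp (A.G l) ∧ H (A.x + C c * A.y) = PowerSeries.X ^ M'

theorem hom_C {n : ℕ} (H : MvPowerSeries (Fin n) K →ₐ[K] WS d K) (c : K) :
    H (C c) = PowerSeries.C (C c) := by
  have h1 : (C c : MvPowerSeries (Fin n) K) = algebraMap K _ c := rfl
  rw [h1, AlgHom.commutes, IsScalarTower.algebraMap_apply K (MvPowerSeries (Fin d) K) (WS d K)]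
  rfl

theorem good_diff [IsAlgClosed K] [CharZero K] (A : Arcs0 g I) {c : K} (hc : c ≠ 0)
    (hA : ∀ l, ∃ (m : ℕ) (a b : WS d K), 1 ≤ m ∧ IsUnit a ∧
      A.G l (A.x + C c * A.y) = PowerSeries.X ^ m * a ∧ A.G l A.y = PowerSeries.X ^ m * b)
    {M' : ℕ} {H H' : MvPowerSeries (Fin (d + 2)) K →ₐ[K] WS d K} (h : Good A c M' H)
    (h' : Good A c M' H') (hne : H ≠ H') :
    ∃ k, Associated (H A.y - H' A.y) (PowerSeries.X ^ k) := by
  obtain ⟨l, φ, hφ, rfl, hx⟩ := h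
  obtain ⟨l', φ', hφ', rfl, hx'⟩ := h'
  -- the difference of the values of `y`
  have hxy : PowerSeries.C (C c) * (φ (A.G l A.y) - φ' (A.G l' A.y)) =
      -(φ PowerSeries.X ^ A.M - φ' PowerSeries.X ^ A.M) := by
    have h1 : φ PowerSeries.X ^ A.M + PowerSeries.C (C c) * φ (A.G l A.y) =
        PowerSeries.X ^ M' := by
      rw [← hx, AlgHom.comp_apply, map_add, map_add, A.Gx, map_pow, map_mul, map_mul, hom_C,
        sub_C hφ.1]
    have h2 : φ' PowerSeries.X ^ A.M + PowerSeries.C (C c) * φ' (A.G l' A.y) =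
        PowerSeries.X ^ M' := by
      rw [← hx', AlgHom.comp_apply, map_add, map_add, A.Gx, map_pow, map_mul, map_mul, hom_C,
        sub_C hφ'.1]
    linear_combination h1 - h2
  have hcu : IsUnit (PowerSeries.C (C c) : WS d K) := isUnit_CC hc
  have claim : ∀ ξ ∈ Polynomial.nthRootsFinset A.M (1 : WS d K),
      ∃ k, Associated (φ PowerSeries.X - ξ * φ' PowerSeries.X) (PowerSeries.X ^ k) := by
    intro ξ hξ
    rw [Polynomial.mem_nthRootsFinset (Nat.pos_of_ne_zero A.hM)] at hξ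
    obtain ⟨ζ, hζ, rfl⟩ := exists_root_unity A.hM hξ
    have hζ0 : ζ ≠ 0 := by
      rintro rfl
      rw [zero_pow A.hM] at hζ
      exact zero_ne_one hζ
    obtain ⟨l'', hl''⟩ := A.conj ζ⁻¹ (by rw [inv_pow, hζ, inv_one]) l'
    have hφ'' : IsSub (φ'.comp (rotK ζ)) := hφ'.comp (isSub_rotK hζ0)
    have hX : (φ'.comp (rotK ζ)) PowerSeries.X = PowerSeries.C (C ζ) * φ' PowerSeries.X := by
      rw [AlgHom.comp_apply, rotK_X, map_mul, sub_C hφ'.1]
    have hH : φ'.comp (A.G l') = (φ'.comp (rotK ζ)).comp (A.G l'') := by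
      rw [← hl'', AlgHom.comp_assoc, ← AlgHom.comp_assoc (rotK ζ), rotK_comp hζ0, AlgHom.id_comp]
    rw [← hX]
    by_cases hll : l = l''
    · subst hll
      obtain ⟨m, a, b, hm, ha, hma, -⟩ := hA l
      rcases two_sub hφ hφ'' hm ha (by
        rw [← hma]
        have h1 : φ (A.G l (A.x + C c * A.y)) = PowerSeries.X ^ M' := hx
        rw [hH] at hx'
        have h2 : (φ'.comp (rotK ζ)) (A.G l (A.x + C c * A.y)) = PowerSeries.X ^ M' := hx'
        rw [h1, h2]) with h1 | h1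
      · exfalso
        apply hne
        rw [hH, ← h1]
      · exact h1
    · obtain ⟨k, hk⟩ := A.diff l l'' hll
      obtain ⟨k', hk'⟩ := hφ.assoc hk
      have hd : ∀ w, φ PowerSeries.X - (φ'.comp (rotK ζ)) PowerSeries.X ∣
          φ w - (φ'.comp (rotK ζ)) w :=
        sub_dvd _ _ fun j => by rw [hφ.1, hφ''.1]
      apply pow_of_dvd hk'
      have h1 : φ PowerSeries.X - (φ'.comp (rotK ζ)) PowerSeries.X ∣
          PowerSeries.C (C c) * (φ (A.G l A.y) - φ' (A.G l' A.y)) := by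
        rw [hxy, dvd_neg]
        have h2 := hd (PowerSeries.X ^ A.M)
        rw [map_pow, map_pow] at h2
        have h3 : ((φ'.comp (rotK ζ)) PowerSeries.X) ^ A.M = φ' PowerSeries.X ^ A.M := by
          rw [hX, mul_pow, ← map_pow, ← map_pow, hζ, map_one, map_one, one_mul]
        rwa [h3] at h2
      have h2 : φ PowerSeries.X - (φ'.comp (rotK ζ)) PowerSeries.X ∣
          φ (A.G l A.y) - φ' (A.G l' A.y) := (hcu.dvd_mul_left).1 h1
      have h3 : φ' (A.G l' A.y) = (φ'.comp (rotK ζ)) (A.G l'' A.y) :=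
        DFunLike.congr_fun hH A.y
      rw [h3] at h2
      have h4 := dvd_sub h2 (hd (A.G l'' A.y))
      have h5 : φ (A.G l A.y - A.G l'' A.y) =
          φ (A.G l A.y) - (φ'.comp (rotK ζ)) (A.G l'' A.y) -
            (φ (A.G l'' A.y) - (φ'.comp (rotK ζ)) (A.G l'' A.y)) := by
        rw [map_sub]
        ring
      rw [h5]
      exact h4
  obtain ⟨k, hk⟩ := prod_pow _ _ claim
  rw [← pow_sub_pow' A.hM] at hk
  refine ⟨k, ?_⟩
  change Associated (φ (A.G l A.y) - φ' (A.G l' A.y)) _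
  have h1 : Associated (PowerSeries.C (C c) * (φ (A.G l A.y) - φ' (A.G l' A.y)))
      (PowerSeries.X ^ k) := by
    rw [hxy]
    exact (Associated.neg_left (Associated.refl _)).trans hk
  exact ((associated_unit_mul_left _ _ hcu).symm).trans h1

end

end Pool.Agent.Helper85.SZ
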